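import Pool.Agent.H607Z.Two.Ex

/-! Counting antipodal points for the two structures. -/

namespace Pool.Agent.H607Z.Two

open scoped Manifold ContDiff Topology InnerProductSpace TensorProduct
open Set Filter Function

set_option linter.style.haveILetI false

/-- equal up to sign -/
def Par (a u : S3) : Prop := (u : Qn) = a ∨ (u : Qn) = -a

/-- orthogonal -/
def Perp (a u : S3) : Prop := ⟪(a : Qn), (u : Qn)⟫_ℝ = 0

lemma Par.refl (a : S3) : Par a a := Or.inl rfl

lemma Par.symm {a u : S3} (h : Par a u) : Par u a := by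
  rcases h with h | h
  · exact Or.inl h.symm
  · exact Or.inr (by rw [h, neg_neg])

lemma Par.trans {a u v : S3} (h : Par a u) (h' : Par u v) : Par a v := by
  rcases h with h | h <;> rcases h' with h' | h'
  · exact Or.inl (h'.trans h)
  · exact Or.inr (by rw [h', h])
  · exact Or.inr (h'.trans h)
  · exact Or.inl (by rw [h', h, neg_neg])

lemma Par.not_perp {a u : S3} (h : Par a u) : ¬ Perp a u := by
  intro h'
  have e := S3.inner_self a
  rcases h with h | h
  · rw [Perp, h, e] at h'; exact one_ne_zero h'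
  · rw [Perp, h, inner_neg_right, e] at h'; norm_num at h'

lemma pat_cases {a1 a2 a3 b1 b2 b3 : Prop}
    (h : (a1 ∧ a2 ∧ a3) ∨ (a1 ∧ b2 ∧ b3) ∨ (b1 ∧ a2 ∧ b3) ∨ (b1 ∧ b2 ∧ a3)) :
    (a1 ∨ b1) ∧ (a2 ∨ b2) ∧ (¬ b1 → ¬ b2 → a3) ∧ (¬ a1 → ¬ a2 → a3) ∧ (¬ b1 → ¬ b3 → a2) := by
  tauto

/-- lines which are pairwise equal or orthogonal can be labelled by four labels -/
lemma exists_label {ι : Type} (f : ι → S3) (h : ∀ i j, Par (f i) (f j) ∨ Perp (f i) (f j)) :
    ∃ c : ι → Fin 4, ∀ i j, c i = c j ↔ Par (f i) (f j) := by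
  classical
  let r : Setoid ι := ⟨fun i j => Par (f i) (f j), fun i => Par.refl _, Par.symm, Par.trans⟩
  let v : Quotient r → Qn := fun q => f q.out
  have hv : Orthonormal ℝ v := by
    refine ⟨fun q => S3.norm _, fun q q' hne => ?_⟩
    rcases h q.out q'.out with h1 | h1
    · exact absurd (Quotient.out_equiv_out.1 h1) hne
    · exact h1
  haveI : Finite (Quotient r) := hv.linearIndependent.finite
  haveI : Fintype (Quotient r) := Fintype.ofFinite _
  have hc : Fintype.card (Quotient r) ≤ Fintype.card (Fin 4) := by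
    have := hv.linearIndependent.fintype_card_le_finrank
    rw [Quaternion.finrank_eq_four] at this
    simpa using this
  obtain ⟨e⟩ := Function.Embedding.nonempty_of_card_le hc
  refine ⟨fun i => e (Quotient.mk r i), fun i j => ?_⟩
  rw [e.apply_eq_iff_eq]
  exact Quotient.eq

lemma sg_rs {a u : S3} {c : ℤˣ} (h : sg c (rs a u) = u) :
    (c = 1 ∧ Par a u) ∨ (c = -1 ∧ Perp a u) := by
  have h1 := congrArg (fun z : S3 => (z : Qn)) h
  rcases Int.units_eq_one_or c with rfl | rfl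
  · left
    simp only [sg_coe, rs_coe, one_smul] at h1
    exact ⟨rfl, rf_eq_self h1⟩
  · right
    simp only [sg_coe, rs_coe, Units.neg_smul, one_smul] at h1
    exact ⟨rfl, rf_eq_neg (neg_eq_iff_eq_neg.1 h1)⟩

lemma pattern {q q' : XX} (h : desc S1 q q' = q') :
    (Par (sec q).1 (sec q').1 ∧ Par (sec q).2.1 (sec q').2.1 ∧ Par (sec q).2.2 (sec q').2.2) ∨
    (Par (sec q).1 (sec q').1 ∧ Perp (sec q).2.1 (sec q').2.1 ∧ Perp (sec q).2.2 (sec q').2.2) ∨
    (Perp (sec q).1 (sec q').1 ∧ Par (sec q).2.1 (sec q').2.1 ∧ Perp (sec q).2.2 (sec q').2.2) ∨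
    (Perp (sec q).1 (sec q').1 ∧ Perp (sec q).2.1 (sec q').2.1 ∧ Par (sec q).2.2 (sec q').2.2) := by
  obtain ⟨⟨a, b⟩, hγ⟩ := pr_eq (h.trans (pr_sec q').symm)
  have h1 := sg_rs (congrArg (fun z : NN => z.1) hγ)
  have h2 := sg_rs (congrArg (fun z : NN => z.2.1) hγ)
  have h3 := sg_rs (congrArg (fun z : NN => z.2.2) hγ)
  rcases h1 with ⟨ha, h1⟩ | ⟨ha, h1⟩ <;> rcases h2 with ⟨hb, h2⟩ | ⟨hb, h2⟩ <;>
    rcases h3 with ⟨hc, h3⟩ | ⟨hc, h3⟩ <;> simp only at ha hb hc <;> subst ha hb <;>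
    first
    | tauto
    | exact absurd hc (by decide)

/-- the opposite point -/
noncomputable def opp (q : XX) : XX := pr ((sec q).1, (sec q).2.1, sg (-1) (sec q).2.2)

lemma par_sg {a u : S3} (h : Par a u) : ∃ c : ℤˣ, sg c a = u := by
  rcases h with h | h
  · exact ⟨1, Subtype.ext (by simp [h])⟩
  · exact ⟨-1, Subtype.ext (by simp [h])⟩

lemma sg_sg (a b : ℤˣ) (x : S3) : sg a (sg b x) = sg (a * b) x :=
  Subtype.ext (by simp [mul_smul])

lemma eq_or_opp {q q' : XX} (h1 : Par (sec q).1 (sec q').1) (h2 : Par (sec q).2.1 (sec q').2.1)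
    (h3 : Par (sec q).2.2 (sec q').2.2) : q' = q ∨ q' = opp q := by
  obtain ⟨a, ha⟩ := par_sg h1
  obtain ⟨b, hb⟩ := par_sg h2
  obtain ⟨c, hc⟩ := par_sg h3
  by_cases habc : c = a * b
  · left
    have e : act (a, b) (sec q) = sec q' := Prod.ext ha (Prod.ext hb (by rw [← hc, habc]; rfl))
    exact (pr_sec q').symm.trans ((congrArg pr e.symm).trans ((pr_act _ _).trans (pr_sec q)))
  · right
    suffices e : act (a, b) ((sec q).1, (sec q).2.1, sg (-1) (sec q).2.2) = sec q' from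
      (pr_sec q').symm.trans ((congrArg pr e.symm).trans (pr_act _ _))
    refine Prod.ext ha (Prod.ext hb ?_)
    rw [← hc]
    change sg (a * b) (sg (-1) _) = _
    rw [sg_sg]
    congr 1
    rcases Int.units_eq_one_or a with rfl | rfl <;> rcases Int.units_eq_one_or b with rfl | rfl <;>
      rcases Int.units_eq_one_or c with rfl | rfl <;> first | rfl | exact absurd (by decide) habc

lemma opp_ne (q : XX) : opp q ≠ q := by
  intro h
  obtain ⟨⟨a, b⟩, hγ⟩ := pr_eq (h.trans (pr_sec q).symm)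
  have h1 : a = 1 := unit_eq_one (congrArg (fun z : NN => z.1) hγ)
  have h2 : b = 1 := unit_eq_one (congrArg (fun z : NN => z.2.1) hγ)
  have h3 := congrArg (fun z : NN => z.2.2) hγ
  subst h1 h2
  simp only [act, sg_sg] at h3
  exact absurd (unit_eq_one h3) (by decide)

lemma opp_opp (q : XX) : opp (opp q) = q := by
  obtain ⟨⟨a, b⟩, hγ⟩ := pr_eq (pr_sec (opp q)).symm
  conv_rhs => rw [← pr_sec q, ← pr_act (a, b)]
  rw [opp, ← hγ]
  congr 1
  refine Prod.ext rfl (Prod.ext rfl ?_)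
  simp only [act, sg_sg]
  congr 1
  simp

lemma exists_sign : ∃ ε : XX → Bool, ∀ q, ε (opp q) ≠ ε q := by
  classical
  letI : LinearOrder XX := linearOrderOfSTO WellOrderingRel
  refine ⟨fun q => decide (q < opp q), fun q => ?_⟩
  simp only [opp_opp, ne_eq, decide_eq_decide]
  intro h
  rcases lt_trichotomy q (opp q) with h1 | h1 | h1
  · exact lt_asymm h1 (h.2 h1)
  · exact opp_ne q h1.symm
  · exact lt_asymm h1 (h.1 h1)

theorem antipodal_le (A : Set XX) (hA : ∀ x ∈ A, ∀ y ∈ A, desc S1 x y = y) :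
    Cardinal.mk A ≤ 16 := by
  classical
  have hp := fun (x y : A) => pat_cases (pattern (hA x x.2 y y.2))
  obtain ⟨c1, hc1⟩ := exists_label (fun x : A => (sec x).1) (fun x y => (hp x y).1)
  obtain ⟨c2, hc2⟩ := exists_label (fun x : A => (sec x).2.1) (fun x y => (hp x y).2.1)
  obtain ⟨ε, hε⟩ := exists_sign
  have fin : ∀ x y : A, Par (sec x).1 (sec y).1 → Par (sec x).2.1 (sec y).2.1 →
      ε x = ε y → x = y := by
    intro x y h1 h2 he
    have h3 : Par (sec x).2.2 (sec y).2.2 := (hp x y).2.2.1 h1.not_perp h2.not_perp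
    rcases eq_or_opp h1 h2 h3 with h | h
    · exact Subtype.ext h.symm
    · exact absurd (h ▸ he.symm) (hε x)
  have key : ∃ f : A → Fin 4 × Bool × Bool, Injective f := by
    by_cases hall : ∀ x y : A, c1 x = c1 y
    · refine ⟨fun x => (c2 x, ε x, true), fun x y h => ?_⟩
      simp only [Prod.mk.injEq, and_true] at h
      exact fin x y ((hc1 x y).1 (hall x y)) ((hc2 x y).1 h.1) h.2
    · have hr : ∀ a : Fin 4, ∃ r : A, c1 r ≠ a := by
        intro a
        by_contra hcon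
        push Not at hcon
        exact hall fun x y => (hcon x).trans (hcon y).symm
      choose r hr using hr
      refine ⟨fun x => (c1 x, ε x, decide (c2 x = c2 (r (c1 x)))), fun x y h => ?_⟩
      simp only [Prod.mk.injEq, decide_eq_decide] at h
      obtain ⟨h1, he, h2⟩ := h
      have p1 := (hc1 x y).1 h1
      refine fin x y p1 ?_ he
      rw [← h1] at h2
      set z := r (c1 x) with hz
      have nx : ¬ Par (sec z).1 (sec x).1 := fun h => hr (c1 x) ((hc1 z x).2 h)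
      have ny : ¬ Par (sec z).1 (sec y).1 := fun h => hr (c1 x) (((hc1 z y).2 h).trans h1.symm)
      by_cases hx : c2 x = c2 z
      · exact (hc2 x y).1 (hx.trans (h2.1 hx).symm)
      · have hy : ¬ c2 y = c2 z := fun h => hx (h2.2 h)
        have nx2 : ¬ Par (sec z).2.1 (sec x).2.1 := fun h => hx ((hc2 z x).2 h).symm
        have ny2 : ¬ Par (sec z).2.1 (sec y).2.1 := fun h => hy ((hc2 z y).2 h).symm
        have a1 : Par (sec z).2.2 (sec x).2.2 := (hp z x).2.2.2.1 nx nx2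
        have a2 : Par (sec z).2.2 (sec y).2.2 := (hp z y).2.2.2.1 ny ny2
        have a3 := (a1.symm.trans a2).not_perp
        have a4 := p1.not_perp
        exact (hp x y).2.2.2.2 a4 a3
  obtain ⟨f, hf⟩ := key
  have := Cardinal.mk_le_of_injective hf
  exact this.trans (le_of_eq (by simp))

theorem two1_le : twoNumber (desc S1) ≤ 16 := by
  haveI : Nonempty {A : Set XX // ∀ x ∈ A, ∀ y ∈ A, desc S1 x y = y} := ⟨⟨∅, by simp⟩⟩
  exact ciSup_le fun A => antipodal_le A.1 A.2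

/-- the standard orthonormal basis of the quaternions -/
def eb : Fin 4 → Qn := ![⟨1, 0, 0, 0⟩, ⟨0, 1, 0, 0⟩, ⟨0, 0, 1, 0⟩, ⟨0, 0, 0, 1⟩]

lemma inner_eb (i j : Fin 4) : ⟪eb i, eb j⟫_ℝ = if i = j then 1 else 0 := by
  rw [Quaternion.inner_def]
  fin_cases i <;> fin_cases j <;> simp [eb]

lemma norm_eb (i : Fin 4) : ‖eb i‖ = 1 := by
  rw [norm_eq_sqrt_real_inner, inner_eb]; simp

/-- basis vectors as points of the sphere -/
def es (i : Fin 4) : S3 := ⟨eb i, by simp [norm_eb]⟩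

/-- the thirty-two points -/
noncomputable def pt (k : Fin 4 × Fin 4 × ℤˣ) : NN :=
  (es k.1, es k.2.1, sg k.2.2 ⟨star (eb k.2.1) * star (eb k.1), by simp [norm_eb]⟩)

lemma mu_pt (k : Fin 4 × Fin 4 × ℤˣ) : mu (jj (pt k)) = k.2.2 • (1 : Qn) := by
  have h1 := mul_star_self (norm_eb k.1)
  have h2 := mul_star_self (norm_eb k.2.1)
  have : eb k.1 * eb k.2.1 * (star (eb k.2.1) * star (eb k.1)) = 1 := by
    rw [mul_assoc, ← mul_assoc (eb k.2.1), h2, one_mul, h1]
  change eb k.1 * eb k.2.1 * (k.2.2 • (star (eb k.2.1) * star (eb k.1))) = _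
  rw [mul_smul_comm, this]

lemma es_sg {i j : Fin 4} {c : ℤˣ} (h : sg c (es i) = es j) : i = j := by
  by_contra hne
  have h1 : ⟪eb j, eb j⟫_ℝ = ⟪c • eb i, eb j⟫_ℝ := by
    have := congrArg (fun z : S3 => (z : Qn)) h
    change c • eb i = eb j at this
    rw [this]
  rcases Int.units_eq_one_or c with rfl | rfl
  · simp [inner_eb, hne, norm_eb] at h1
  · simp [inner_eb, hne, norm_eb] at h1

lemma pt_inj : Injective (fun k => pr (pt k)) := by
  rintro ⟨i, j, c⟩ ⟨i', j', c'⟩ h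
  obtain ⟨γ, hγ⟩ := pr_eq h
  have h1 : i = i' := es_sg (congrArg (fun z : NN => z.1) hγ)
  have h2 : j = j' := es_sg (congrArg (fun z : NN => z.2.1) hγ)
  have h3 := congrArg (fun z : NN => mu (jj z)) hγ
  simp only [mu_act, mu_pt] at h3
  have h4 : c = c' := by
    have h5 : (1 : Qn) ≠ -1 := S3.ne_neg ⟨1, by simp⟩
    rcases Int.units_eq_one_or c with rfl | rfl <;> rcases Int.units_eq_one_or c' with rfl | rfl
    · rfl
    · exact absurd (by simpa using h3) h5
    · exact absurd (by simpa using h3.symm) h5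
    · rfl
  rw [h1, h2, h4]

lemma rf_usmul_left (c : ℤˣ) (a : Qn) : rf (c • a) = rf a := by
  rcases Int.units_eq_one_or c with rfl | rfl
  · simp
  · simp only [Units.neg_smul, one_smul, rf]
    have : (ℝ ∙ (-a)) = (ℝ ∙ a) := by
      rw [← Set.neg_singleton, Submodule.span_neg]
    congr 1

lemma rs_es (c : ℤˣ) (i j : Fin 4) : ∃ d : ℤˣ, rs (sg c (es i)) (es j) = sg d (es j) := by
  by_cases h : i = j
  · subst h
    exact ⟨1, Subtype.ext (by simp [rf_usmul_left, rf_self])⟩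
  · refine ⟨-1, Subtype.ext ?_⟩
    simp only [rs_coe, sg_coe, rf_usmul_left, Units.neg_smul, one_smul]
    apply rf_perp
    change ⟪eb i, eb j⟫_ℝ = 0
    simp [inner_eb, h]

lemma pt_antipodal (k l : Fin 4 × Fin 4 × ℤˣ) : desc S2 (pr (pt k)) (pr (pt l)) = pr (pt l) := by
  rw [desc_pr S2_act]
  obtain ⟨γ, hγ⟩ := pr_eq (pr_sec (pr (pt k))).symm
  rw [← hγ]
  obtain ⟨a, ha⟩ := rs_es γ.1 k.1 l.1
  obtain ⟨b, hb⟩ := rs_es γ.2 k.2.1 l.2.1
  rw [← pr_act (a, b) (pt l)]
  congr 1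
  apply ext_mu
  · exact ha
  · exact hb
  · rw [mu_S2, mu_act, mu_act, mu_pt, mu_pt, rf_usmul_left, rf_usmul, rf_self]

theorem le_two2 : 32 ≤ twoNumber (desc S2) := by
  let A : Set XX := range (fun k => pr (pt k))
  have hA : ∀ x ∈ A, ∀ y ∈ A, desc S2 x y = y := by
    rintro _ ⟨k, rfl⟩ _ ⟨l, rfl⟩
    exact pt_antipodal k l
  have h1 : Cardinal.mk A = 32 := by
    rw [Cardinal.mk_range_eq _ pt_inj]
    simp
  rw [← h1]
  exact le_ciSup (f := fun A : {A : Set XX // ∀ x ∈ A, ∀ y ∈ A, desc S2 x y = y} =>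
    Cardinal.mk A.1) Cardinal.bddAbove_of_small ⟨A, hA⟩

theorem exists_ne : ∃ n b : Cardinal.{0}, Realized n b ∧ n ≠ b := by
  by_cases h : twoNumber (desc S1) = totalBettiModTwo XX
  · refine ⟨_, _, realized2, fun h2 => ?_⟩
    have h3 : (32 : Cardinal.{0}) ≤ 16 := le_two2.trans ((h2.trans h.symm).le.trans two1_le)
    norm_num at h3
  · exact ⟨_, _, realized1, h⟩

end Pool.Agent.H607Z.Two
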