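import Mathlib

/-! Definitions: two-number of a space with point symmetries, total mod 2 Betti number. -/

namespace Pool.Agent.H607Z.Two

open CategoryTheory

/-- The two-number of `M` with respect to the family of symmetries `s` (`s x` is the symmetry at
`x`): the supremum of the cardinalities of the antipodal subsets, the subsets `A` such that
`s x y = y` for all `x, y ∈ A`. -/
noncomputable def twoNumber {M : Type} (s : M → M → M) : Cardinal.{0} :=
  ⨆ A : {A : Set M // ∀ x ∈ A, ∀ y ∈ A, s x y = y}, Cardinal.mk A.1

/-- Singular cohomology `H^i(X; ℤ/2)`: the `i`-th cohomology of the complex of `ℤ/2`-linear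
forms on the singular chain complex of `X` with coefficients in `ℤ/2`. -/
noncomputable def cohomologyModTwo (X : Type) [TopologicalSpace X] (i : ℕ) :
    ModuleCat.{0} (ZMod 2) :=
  ((((AlgebraicTopology.singularChainComplexFunctor (ModuleCat.{0} (ZMod 2))).obj
    (ModuleCat.of (ZMod 2) (ZMod 2))).obj (TopCat.of X)).linearYonedaObj (ZMod 2)
    (ModuleCat.of (ZMod 2) (ZMod 2))).homology i

/-- The total mod 2 Betti number: the sum over `i` of the dimensions of `H^i(X; ℤ/2)`. -/
noncomputable def totalBettiModTwo (X : Type) [TopologicalSpace X] : Cardinal.{0} :=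
  Cardinal.sum fun i : ℕ => Module.rank (ZMod 2) (cohomologyModTwo X i)

end Pool.Agent.H607Z.Two
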