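import Pool.Agent.H607Z.Two.Space

/-! The two symmetric structures. -/

namespace Pool.Agent.H607Z.Two

open scoped Manifold ContDiff Topology InnerProductSpace TensorProduct
open Set Filter Function

set_option linter.style.haveILetI false
set_option maxSynthPendingDepth 3
set_option linter.unusedSimpArgs false

/-- reflection in the line spanned by `a` -/
noncomputable def rf (a : Qn) : Qn ≃ₗᵢ[ℝ] Qn := (ℝ ∙ a).reflection

lemma rf_self (a : Qn) : rf a a = a :=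
  Submodule.reflection_mem_subspace_eq_self (Submodule.mem_span_singleton_self a)

lemma rf_neg_self (a : Qn) : rf a (-a) = -a := by rw [map_neg, rf_self]

lemma rf_perp {a u : Qn} (h : ⟪a, u⟫_ℝ = 0) : rf a u = -u :=
  Submodule.reflection_mem_subspace_orthogonalComplement_eq_neg
    (Submodule.mem_orthogonal_singleton_iff_inner_right.2 h)

lemma rf_rf (a u : Qn) : rf a (rf a u) = u := Submodule.reflection_reflection _ u

lemma rf_usmul (a : Qn) (c : ℤˣ) (u : Qn) : rf a (c • u) = c • rf a u := by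
  rcases Int.units_eq_one_or c with rfl | rfl <;> simp

lemma rf_eq_self {a u : S3} (h : rf a u = u) : (u : Qn) = a ∨ (u : Qn) = -a := by
  have h1 := (Submodule.reflection_eq_self_iff (K := ℝ ∙ (a : Qn)) (u : Qn)).1 h
  obtain ⟨c, hc⟩ := Submodule.mem_span_singleton.1 h1
  have h2 : |c| = 1 := by
    have := S3.norm u
    rwa [← hc, norm_smul, S3.norm, mul_one, Real.norm_eq_abs] at this
  rcases abs_eq (zero_le_one) |>.1 h2 with h3 | h3
  · left; rw [← hc, h3, one_smul]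
  · right; rw [← hc, h3, neg_smul, one_smul]

lemma rf_eq_neg {a u : Qn} (h : rf a u = -u) : ⟪a, u⟫_ℝ = 0 := by
  have h1 : ⟪rf a a, rf a u⟫_ℝ = ⟪a, u⟫_ℝ := (rf a).inner_map_map a u
  rw [rf_self, h, inner_neg_right] at h1
  linarith

/-- reflection on the sphere -/
noncomputable def rs (a : Qn) (x : S3) : S3 := ⟨rf a x, by simp⟩

@[simp] lemma rs_coe (a : Qn) (x : S3) : (rs a x : Qn) = rf a x := rfl

lemma contMDiff_rs (a : Qn) : ContMDiff (𝓡 3) (𝓡 3) ∞ (rs a) := by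
  have h : ContMDiff (𝓡 3) 𝓘(ℝ, Qn) ∞ (fun x : S3 => rf a (x : Qn)) :=
    (rf a).contDiff.contMDiff.comp contMDiff_coe_sphere
  exact h.codRestrict_sphere (fun x => (rs a x).2)

/-! ### First structure: unit decomposable tensors -/

/-- first family of symmetries -/
noncomputable def S1 (p0 p : NN) : NN := (rs p0.1 p.1, rs p0.2.1 p.2.1, rs p0.2.2 p.2.2)

/-- first target -/
abbrev V1 : Type := Qn ⊗[ℝ] (Qn ⊗[ℝ] Qn)

/-- first immersion -/
noncomputable def F1 (w : WW) : V1 := w.1 ⊗ₜ[ℝ] (w.2.1 ⊗ₜ[ℝ] w.2.2)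

lemma contDiff_tmul {U U' : Type} [NormedAddCommGroup U] [InnerProductSpace ℝ U]
    [NormedAddCommGroup U'] [InnerProductSpace ℝ U'] {f : WW → U} {g : WW → U'}
    (hf : ContDiff ℝ ∞ f) (hg : ContDiff ℝ ∞ g) : ContDiff ℝ ∞ (fun w => f w ⊗ₜ[ℝ] g w) :=
  (TensorProduct.mkL ℝ U U').isBoundedBilinearMap.contDiff.comp (hf.prodMk hg)

lemma hasFDerivAt_tmul {U U' : Type} [NormedAddCommGroup U] [InnerProductSpace ℝ U]
    [NormedAddCommGroup U'] [InnerProductSpace ℝ U'] {f : WW → U} {g : WW → U'}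
    {f' : WW →L[ℝ] U} {g' : WW →L[ℝ] U'} {w : WW}
    (hf : HasFDerivAt f f' w) (hg : HasFDerivAt g g' w) :
    ∃ D : WW →L[ℝ] U ⊗[ℝ] U', HasFDerivAt (fun w => f w ⊗ₜ[ℝ] g w) D w ∧
      ∀ t, D t = f w ⊗ₜ[ℝ] g' t + f' t ⊗ₜ[ℝ] g w :=
  ⟨_, (TensorProduct.mkL ℝ U U').hasFDerivAt_of_bilinear hf hg, fun _ => rfl⟩

/-- coordinate projections -/
noncomputable def P1 : WW →L[ℝ] Qn := ContinuousLinearMap.fst ℝ Qn _
/-- coordinate projections -/
noncomputable def P2 : WW →L[ℝ] Qn :=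
  (ContinuousLinearMap.fst ℝ Qn Qn).comp (ContinuousLinearMap.snd ℝ Qn _)
/-- coordinate projections -/
noncomputable def P3 : WW →L[ℝ] Qn :=
  (ContinuousLinearMap.snd ℝ Qn Qn).comp (ContinuousLinearMap.snd ℝ Qn _)

lemma contDiff_F1 : ContDiff ℝ ∞ F1 :=
  contDiff_tmul P1.contDiff (contDiff_tmul P2.contDiff P3.contDiff)

lemma fderiv_F1 (w t : WW) : fderiv ℝ F1 w t =
    w.1 ⊗ₜ[ℝ] (w.2.1 ⊗ₜ[ℝ] t.2.2 + t.2.1 ⊗ₜ[ℝ] w.2.2) + t.1 ⊗ₜ[ℝ] (w.2.1 ⊗ₜ[ℝ] w.2.2) := by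
  obtain ⟨D, hD, hD'⟩ := hasFDerivAt_tmul (P2.hasFDerivAt (x := w)) (P3.hasFDerivAt (x := w))
  obtain ⟨D2, hD2, hD2'⟩ := hasFDerivAt_tmul (P1.hasFDerivAt (x := w)) hD
  have : HasFDerivAt F1 D2 w := hD2
  rw [this.fderiv, hD2', hD']
  rfl

/-- first ambient isometries -/
noncomputable def A1 (p : NN) : V1 →ₗᵢ[ℝ] V1 :=
  TensorProduct.mapIsometry (rf p.1).toLinearIsometry
    (TensorProduct.mapIsometry (rf p.2.1).toLinearIsometry (rf p.2.2).toLinearIsometry)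

lemma A1_tmul (p : NN) (a b c : Qn) :
    A1 p (a ⊗ₜ[ℝ] (b ⊗ₜ[ℝ] c)) = rf p.1 a ⊗ₜ[ℝ] (rf p.2.1 b ⊗ₜ[ℝ] rf p.2.2 c) := rfl

lemma S1_act (p0 : NN) (γ : ℤˣ × ℤˣ) (p : NN) : S1 p0 (act γ p) = act γ (S1 p0 p) := by
  refine Prod.ext (Subtype.ext ?_) (Prod.ext (Subtype.ext ?_) (Subtype.ext ?_)) <;>
    simp [S1, act, rf_usmul]

theorem realized1 : Realized (twoNumber (desc S1)) (totalBettiModTwo XX) := by
  refine realized_of_ambient (innerSL ℝ) (fun v w => real_inner_comm _ _)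
    (fun v hv => real_inner_self_pos.2 hv) F1 contDiff_F1 ?_ ?_ S1 ?_ S1_act ?_ ?_
    (fun p => (A1 p).toContinuousLinearMap) (fun p u => LinearIsometry.inner_map_map (𝕜 := ℝ) (E := V1) (E' := V1) (A1 p) u u) ?_ ?_
  · rintro ⟨a, b⟩ p
    rcases Int.units_eq_one_or a with rfl | rfl <;> rcases Int.units_eq_one_or b with rfl | rfl <;>
      simp [F1, jj, act, TensorProduct.neg_tmul, TensorProduct.tmul_neg]
  · intro p t ht
    rw [fderiv_F1] at ht
    have h1 := inner_Dj1 p t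
    have h2 := inner_Dj2 p t
    have h3 := inner_Dj3 p t
    have e1 := S3.inner_self p.1
    have e2 := S3.inner_self p.2.1
    have e3 := S3.inner_self p.2.2
    generalize Dj p t = u at *
    obtain ⟨u, v, w⟩ := u
    simp only [jj] at ht h1 h2 h3
    have h1' := (real_inner_comm _ _).trans h1
    have h2' := (real_inner_comm _ _).trans h2
    have h3' := (real_inner_comm _ _).trans h3
    have k1 := congrArg (fun z : V1 => ⟪u ⊗ₜ[ℝ] ((p.2.1 : Qn) ⊗ₜ[ℝ] (p.2.2 : Qn)), z⟫_ℝ) ht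
    have k2 := congrArg (fun z : V1 => ⟪(p.1 : Qn) ⊗ₜ[ℝ] (v ⊗ₜ[ℝ] (p.2.2 : Qn)), z⟫_ℝ) ht
    have k3 := congrArg (fun z : V1 => ⟪(p.1 : Qn) ⊗ₜ[ℝ] ((p.2.1 : Qn) ⊗ₜ[ℝ] w), z⟫_ℝ) ht
    simp only [inner_add_right, TensorProduct.inner_tmul, inner_zero_right, h1, h2, h3, h1', h2',
      h3', e1, e2, e3, mul_zero, zero_mul, add_zero, zero_add, mul_one, one_mul,
      inner_self_eq_zero] at k1 k2 k3
    simp [k1, k2, k3]
  · intro p0
    exact ((contMDiff_rs _).comp contMDiff_fst).prodMk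
      ((((contMDiff_rs _).comp contMDiff_fst).comp contMDiff_snd).prodMk
        (((contMDiff_rs _).comp contMDiff_snd).comp contMDiff_snd))
  · intro p0 p
    refine Prod.ext (Subtype.ext ?_) (Prod.ext (Subtype.ext ?_) (Subtype.ext ?_)) <;>
      simp [S1, rf_rf]
  · intro p
    refine Prod.ext (Subtype.ext ?_) (Prod.ext (Subtype.ext ?_) (Subtype.ext ?_)) <;>
      simp [S1, rf_self]
  · intro p0 p
    rfl
  · intro p t
    rw [fderiv_F1]
    have h1 := rf_perp (inner_Dj1 p t)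
    have h2 := rf_perp (inner_Dj2 p t)
    have h3 := rf_perp (inner_Dj3 p t)
    change A1 p _ = _
    simp only [jj, TensorProduct.tmul_add, map_add, A1_tmul, rf_self, h1, h2, h3,
      TensorProduct.neg_tmul, TensorProduct.tmul_neg]
    abel

/-! ### Second structure: the product of two projective spaces and a sphere -/

/-- the product of the three coordinates -/
noncomputable def mu (w : WW) : Qn := w.1 * w.2.1 * w.2.2

lemma norm_mu (p : NN) : ‖mu (jj p)‖ = 1 := by simp [mu, jj]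

lemma contDiff_mu : ContDiff ℝ ∞ mu := (P1.contDiff.mul P2.contDiff).mul P3.contDiff

lemma fderiv_mu (w t : WW) : fderiv ℝ mu w t =
    w.1 * w.2.1 * t.2.2 + (w.1 * t.2.1 + t.1 * w.2.1) * w.2.2 := by
  have h := ((P1.hasFDerivAt (x := w)).mul' (P2.hasFDerivAt (x := w))).mul'
    (P3.hasFDerivAt (x := w))
  have h' : HasFDerivAt mu _ w := h
  rw [h'.fderiv]
  simp [P1, P2, P3, add_mul]

lemma mu_act (γ : ℤˣ × ℤˣ) (p : NN) : mu (jj (act γ p)) = mu (jj p) := by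
  obtain ⟨a, b⟩ := γ
  rcases Int.units_eq_one_or a with rfl | rfl <;> rcases Int.units_eq_one_or b with rfl | rfl <;>
    simp [mu, jj, act]

lemma mul_star_self {x : Qn} (h : ‖x‖ = 1) : x * star x = 1 := by
  rw [Quaternion.self_mul_star, Quaternion.normSq_eq_norm_mul_self, h]; simp

lemma star_mul_self' {x : Qn} (h : ‖x‖ = 1) : star x * x = 1 := by
  rw [Quaternion.star_mul_self, Quaternion.normSq_eq_norm_mul_self, h]; simp

/-- third coordinate of the second family -/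
noncomputable def th (p0 p : NN) : Qn :=
  star (rf p0.2.1 p.2.1) * (star (rf p0.1 p.1) * rf (mu (jj p0)) (mu (jj p)))

lemma norm_th (p0 p : NN) : ‖th p0 p‖ = 1 := by
  simp [th, norm_mu]

/-- second family of symmetries -/
noncomputable def S2 (p0 p : NN) : NN :=
  (rs p0.1 p.1, rs p0.2.1 p.2.1, ⟨th p0 p, by simp [norm_th]⟩)

lemma mu_S2 (p0 p : NN) : mu (jj (S2 p0 p)) = rf (mu (jj p0)) (mu (jj p)) := by
  have h1 : rf p0.1 p.1 * star (rf p0.1 p.1) = 1 := mul_star_self (by simp)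
  have h2 : rf p0.2.1 p.2.1 * star (rf p0.2.1 p.2.1) = 1 := mul_star_self (by simp)
  change rf p0.1 p.1 * rf p0.2.1 p.2.1 * th p0 p = _
  rw [th, mul_assoc, ← mul_assoc (rf p0.2.1 p.2.1), h2, one_mul, ← mul_assoc, h1, one_mul]

lemma ext_mu {p q : NN} (h1 : p.1 = q.1) (h2 : p.2.1 = q.2.1) (h3 : mu (jj p) = mu (jj q)) :
    p = q := by
  refine Prod.ext h1 (Prod.ext h2 (Subtype.ext ?_))
  simp only [mu, jj, h1, h2] at h3
  exact mul_left_cancel₀ (mul_ne_zero (S3.ne_zero _) (S3.ne_zero _)) h3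

lemma S2_act (p0 : NN) (γ : ℤˣ × ℤˣ) (p : NN) : S2 p0 (act γ p) = act γ (S2 p0 p) := by
  apply ext_mu
  · exact Subtype.ext (by simp [S2, act, rf_usmul])
  · exact Subtype.ext (by simp [S2, act, rf_usmul])
  · rw [mu_S2, mu_act, mu_act, mu_S2]

/-- second target -/
abbrev V2 : Type := (Qn ⊗[ℝ] Qn) × (Qn ⊗[ℝ] Qn) × Qn

/-- second immersion -/
noncomputable def F2 (w : WW) : V2 := (w.1 ⊗ₜ[ℝ] w.1, w.2.1 ⊗ₜ[ℝ] w.2.1, mu w)

lemma contDiff_F2 : ContDiff ℝ ∞ F2 :=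
  (contDiff_tmul P1.contDiff P1.contDiff).prodMk
    ((contDiff_tmul P2.contDiff P2.contDiff).prodMk contDiff_mu)

lemma fderiv_F2 (w t : WW) : fderiv ℝ F2 w t =
    (w.1 ⊗ₜ[ℝ] t.1 + t.1 ⊗ₜ[ℝ] w.1, w.2.1 ⊗ₜ[ℝ] t.2.1 + t.2.1 ⊗ₜ[ℝ] w.2.1,
      fderiv ℝ mu w t) := by
  obtain ⟨D, hD, hD'⟩ := hasFDerivAt_tmul (P1.hasFDerivAt (x := w)) (P1.hasFDerivAt (x := w))
  obtain ⟨D2, hD2, hD2'⟩ := hasFDerivAt_tmul (P2.hasFDerivAt (x := w)) (P2.hasFDerivAt (x := w))
  have h3 := (contDiff_mu.differentiable (by simp) w).hasFDerivAt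
  have : HasFDerivAt F2 (D.prod (D2.prod (fderiv ℝ mu w))) w := hD.prodMk (hD2.prodMk h3)
  rw [this.fderiv]
  simp only [ContinuousLinearMap.prod_apply, hD', hD2']
  rfl

/-- coordinate projections -/
noncomputable def R1 : V2 →L[ℝ] Qn ⊗[ℝ] Qn := ContinuousLinearMap.fst ℝ _ _
/-- coordinate projections -/
noncomputable def R2 : V2 →L[ℝ] Qn ⊗[ℝ] Qn :=
  (ContinuousLinearMap.fst ℝ _ Qn).comp (ContinuousLinearMap.snd ℝ _ _)
/-- coordinate projections -/
noncomputable def R3 : V2 →L[ℝ] Qn :=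
  (ContinuousLinearMap.snd ℝ _ Qn).comp (ContinuousLinearMap.snd ℝ _ _)

/-- the Euclidean form on the second target -/
noncomputable def B2 : V2 →L[ℝ] V2 →L[ℝ] ℝ :=
  (innerSL ℝ).bilinearComp R1 R1 + (innerSL ℝ).bilinearComp R2 R2 +
    (innerSL ℝ).bilinearComp R3 R3

lemma B2_apply (u v : V2) : B2 u v = ⟪u.1, v.1⟫_ℝ + ⟪u.2.1, v.2.1⟫_ℝ + ⟪u.2.2, v.2.2⟫_ℝ := rfl

/-- the square of a reflection -/
noncomputable def rr (a : Qn) : Qn ⊗[ℝ] Qn →ₗᵢ[ℝ] Qn ⊗[ℝ] Qn :=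
  TensorProduct.mapIsometry (rf a).toLinearIsometry (rf a).toLinearIsometry

lemma rr_tmul (a b c : Qn) : rr a (b ⊗ₜ[ℝ] c) = rf a b ⊗ₜ[ℝ] rf a c := rfl

/-- second ambient isometries -/
noncomputable def A2 (p : NN) : V2 →L[ℝ] V2 :=
  (rr p.1).toContinuousLinearMap.prodMap ((rr p.2.1).toContinuousLinearMap.prodMap
    (rf (mu (jj p))).toLinearIsometry.toContinuousLinearMap)

lemma A2_apply (p : NN) (u : V2) :
    A2 p u = (rr p.1 u.1, rr p.2.1 u.2.1, rf (mu (jj p)) u.2.2) := rfl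

lemma sym_eq_zero {x : S3} {u : Qn} (h : ⟪(x : Qn), u⟫_ℝ = 0)
    (h0 : (x : Qn) ⊗ₜ[ℝ] u + u ⊗ₜ[ℝ] (x : Qn) = 0) : u = 0 := by
  have k := congrArg (fun z : Qn ⊗[ℝ] Qn => ⟪(x : Qn) ⊗ₜ[ℝ] u, z⟫_ℝ) h0
  simp only [inner_add_right, TensorProduct.inner_tmul, inner_zero_right, h, S3.inner_self,
    mul_zero, zero_mul, add_zero, mul_one, one_mul, inner_self_eq_zero] at k
  exact k

lemma contDiff_star : ContDiff ℝ ∞ (fun u : Qn => star u) := by
  let L : Qn →ₗ[ℝ] Qn :=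
    { toFun := star, map_add' := star_add, map_smul' := fun c u => by ext <;> simp }
  have h : (fun u : Qn => star u) = LinearMap.toContinuousLinearMap L := by
    rw [LinearMap.coe_toContinuousLinearMap']
    rfl
  rw [h]
  exact ContinuousLinearMap.contDiff _

lemma contMDiff_th (p0 : NN) : ContMDiff I9 𝓘(ℝ, Qn) ∞ (th p0) := by
  have a1 : ContDiff ℝ ∞ (fun w : WW => star (rf p0.2.1 w.2.1)) :=
    contDiff_star.comp ((rf p0.2.1).contDiff.comp (contDiff_fst.comp contDiff_snd))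
  have a2 : ContDiff ℝ ∞ (fun w : WW => star (rf p0.1 w.1)) :=
    contDiff_star.comp ((rf p0.1).contDiff.comp contDiff_fst)
  have a3 : ContDiff ℝ ∞ (fun w : WW => rf (mu (jj p0)) (mu w)) :=
    (rf (mu (jj p0))).contDiff.comp contDiff_mu
  have h1 := a1.mul (a2.mul a3)
  have h2 : th p0 = (fun w : WW => star (rf p0.2.1 w.2.1) *
      (star (rf p0.1 w.1) * rf (mu (jj p0)) (mu w))) ∘ jj := by
    funext p
    simp only [th, comp_apply, jj]
  rw [h2]
  exact h1.contMDiff.comp contMDiff_jj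

theorem realized2 : Realized (twoNumber (desc S2)) (totalBettiModTwo XX) := by
  refine realized_of_ambient B2 ?_ ?_ F2 contDiff_F2 ?_ ?_ S2 ?_ S2_act ?_ ?_ A2 ?_ ?_ ?_
  · intro v w
    rw [B2_apply, B2_apply, real_inner_comm v.1, real_inner_comm v.2.1, real_inner_comm v.2.2]
  · intro v hv
    rw [B2_apply]
    have h1 := real_inner_self_nonneg (x := v.1)
    have h2 := real_inner_self_nonneg (x := v.2.1)
    have h3 := real_inner_self_nonneg (x := v.2.2)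
    by_contra hc
    apply hv
    have k1 : ⟪v.1, v.1⟫_ℝ = 0 := by linarith
    have k2 : ⟪v.2.1, v.2.1⟫_ℝ = 0 := by linarith
    have k3 : ⟪v.2.2, v.2.2⟫_ℝ = 0 := by linarith
    exact Prod.ext (inner_self_eq_zero.1 k1)
      (Prod.ext (inner_self_eq_zero.1 k2) (inner_self_eq_zero.1 k3))
  · rintro ⟨a, b⟩ p
    refine Prod.ext ?_ (Prod.ext ?_ (mu_act _ _))
    · rcases Int.units_eq_one_or a with rfl | rfl <;>
        simp [F2, jj, act, TensorProduct.neg_tmul, TensorProduct.tmul_neg]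
    · rcases Int.units_eq_one_or b with rfl | rfl <;>
        simp [F2, jj, act, TensorProduct.neg_tmul, TensorProduct.tmul_neg]
  · intro p t ht
    rw [fderiv_F2, fderiv_mu] at ht
    have h1 := sym_eq_zero (inner_Dj1 p t) (congrArg (fun z : V2 => z.1) ht)
    have h2 := sym_eq_zero (inner_Dj2 p t) (congrArg (fun z : V2 => z.2.1) ht)
    have h3 := congrArg (fun z : V2 => z.2.2) ht
    simp only [h1, h2, mul_zero, zero_mul, add_zero, jj, Prod.snd_zero] at h3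
    have h4 := (mul_eq_zero.1 h3).resolve_left (mul_ne_zero (S3.ne_zero _) (S3.ne_zero _))
    exact Prod.ext h1 (Prod.ext h2 h4)
  · intro p0
    refine ((contMDiff_rs _).comp contMDiff_fst).prodMk
      ((((contMDiff_rs _).comp contMDiff_fst).comp contMDiff_snd).prodMk ?_)
    have h2 : ContMDiff I9 𝓘(ℝ, Qn) ∞ (th p0) := contMDiff_th p0
    exact h2.codRestrict_sphere (fun p => by simp [norm_th])
  · intro p0 p
    apply ext_mu
    · exact Subtype.ext (by simp [S2, rf_rf])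
    · exact Subtype.ext (by simp [S2, rf_rf])
    · rw [mu_S2, mu_S2, rf_rf]
  · intro p
    apply ext_mu
    · exact Subtype.ext (by simp [S2, rf_self])
    · exact Subtype.ext (by simp [S2, rf_self])
    · rw [mu_S2, rf_self]
  · intro p u
    rw [B2_apply, B2_apply, A2_apply]
    simp only [LinearIsometry.inner_map_map, LinearIsometryEquiv.inner_map_map]
  · intro p0 p
    rw [A2_apply]
    exact Prod.ext rfl (Prod.ext rfl (mu_S2 p0 p))
  · intro p t
    have h1 := rf_perp (inner_Dj1 p t)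
    have h2 := rf_perp (inner_Dj2 p t)
    have h3 := rf_perp (inner_fderiv_eq_zero (contDiff_mu.differentiable (by simp)) norm_mu p t)
    rw [fderiv_F2, A2_apply]
    refine Prod.ext ?_ (Prod.ext ?_ h3)
    · simp only [jj, map_add, rr_tmul, rf_self, h1, TensorProduct.neg_tmul,
        TensorProduct.tmul_neg, Prod.fst_neg]
      abel
    · simp only [jj, map_add, rr_tmul, rf_self, h2, TensorProduct.neg_tmul,
        TensorProduct.tmul_neg, Prod.fst_neg, Prod.snd_neg]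
      abel

end Pool.Agent.H607Z.Two
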