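import Mathlib

/-! Manifold structure pushed forward along a surjective local homeomorphism whose fibres are
orbits of smooth deck transformations. -/

namespace Pool.Agent.H607Z.Two

open scoped Manifold ContDiff Topology
open Set Filter Function

set_option linter.style.haveILetI false

section

variable {E : Type*} [NormedAddCommGroup E] [NormedSpace ℝ E]
  {H : Type*} [TopologicalSpace H] (I : ModelWithCorners ℝ E H)
  {N : Type*} [TopologicalSpace N] [ChartedSpace H N] [IsManifold I ∞ N]
  {X : Type*} [TopologicalSpace X]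

/-- a covering-like projection with smooth deck transformations -/
structure Cov (π : N → X) (g : X → N) : Prop where
  loc : IsLocalHomeomorph π
  sec : RightInverse g π
  deck : ∀ p p', π p = π p' → ∃ γ : N → N, ContMDiff I I ∞ γ ∧ γ p = p' ∧ ∀ z, π (γ z) = π z

variable {I}
variable {π : N → X} {g : X → N}

/-- the charted space structure on the base -/
@[reducible] noncomputable def Cov.charted (h : Cov I π g) : ChartedSpace H X :=
  h.loc.chartedSpaceOfRightInverse h.sec

omit [IsManifold I ∞ N] in
lemma Cov.local_deck (h : Cov I π g) (n : N) {p : N}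
    (hp : π p ∈ (h.loc.localInverseAt n).source) :
    ∃ γ : N → N, ContMDiff I I ∞ γ ∧ ∀ᶠ z in 𝓝 p, h.loc.localInverseAt n (π z) = γ z := by
  set L := h.loc.localInverseAt n with hL
  have h1 : π (L (π p)) = π p := h.loc.apply_localInverseAt_of_mem hp
  obtain ⟨γ, hγ, hγp, hγπ⟩ := h.deck p (L (π p)) h1.symm
  refine ⟨γ, hγ, ?_⟩
  have h2 : γ p ∈ L.target := by rw [hγp]; exact L.map_source hp
  filter_upwards [hγ.continuous.continuousAt.eventually_mem (L.open_target.mem_nhds h2)] with z hz
  have h3 : π (γ z) = L.symm (γ z) := by rw [hL, h.loc.localInverseAt_symm]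
  rw [← hγπ z, h3, L.right_inv hz]

lemma Cov.isManifold (h : Cov I π g) : letI := h.charted; IsManifold I ∞ X := by
  letI := h.charted
  apply isManifold_of_contDiffOn
  rintro e e' ⟨q, rfl⟩ ⟨q', rfl⟩ y hy
  obtain ⟨hy1, hy2⟩ := hy
  set c := chartAt H (g q) with hc
  set c' := chartAt H (g q') with hc'
  set L := h.loc.localInverseAt (g q) with hL
  set L' := h.loc.localInverseAt (g q') with hL'
  have hLs : (L.symm : N → X) = π := h.loc.localInverseAt_symm _
  simp only [OpenPartialHomeomorph.trans_source, OpenPartialHomeomorph.symm_source,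
    OpenPartialHomeomorph.trans_target, mem_preimage, mem_inter_iff,
    OpenPartialHomeomorph.coe_trans_symm, comp_apply, hLs] at hy1
  obtain ⟨⟨h1, h2⟩, h3, h4⟩ := hy1
  obtain ⟨γ, hγ, hev⟩ := h.local_deck (g q') h3
  have hsm : ContMDiffAt I I ∞ (fun w => c' (L' (π (c.symm w)))) (I.symm y) := by
    have a1 : ContMDiffAt I I ∞ c.symm (I.symm y) :=
      contMDiffAt_symm_of_mem_maximalAtlas (IsManifold.chart_mem_maximalAtlas _) h1
    have a2 : ContMDiffAt I I ∞ (fun z => L' (π z)) (c.symm (I.symm y)) :=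
      (hγ _).congr_of_eventuallyEq hev
    have a3 : ContMDiffAt I I ∞ c' (L' (π (c.symm (I.symm y)))) :=
      contMDiffAt_of_mem_maximalAtlas (IsManifold.chart_mem_maximalAtlas _) h4
    have a4 : ContMDiffAt I I ∞ (fun w => L' (π (c.symm w))) (I.symm y) :=
      ContMDiffAt.comp (g := fun z => L' (π z)) (f := c.symm) (I.symm y) a2 a1
    exact ContMDiffAt.comp (g := c') (f := fun w => L' (π (c.symm w))) (I.symm y) a3 a4
  rw [contMDiffAt_iff] at hsm
  have h5 := hsm.2
  simp only [extChartAt, chartAt_self_eq, mfld_simps] at h5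
  rw [I.right_inv hy2] at h5
  refine (h5.mono inter_subset_right).congr ?_ ?_
  · intro w _
    simp [hLs]
  · simp [hLs]

lemma Cov.contMDiff_proj (h : Cov I π g) : letI := h.charted; ContMDiff I I ∞ π := by
  letI := h.charted
  haveI := h.isManifold
  intro p
  set q := π p with hq
  set c := chartAt H (g q) with hc
  set L := h.loc.localInverseAt (g q) with hL
  have hLs : (L.symm : N → X) = π := h.loc.localInverseAt_symm _
  have hsrc : q ∈ (chartAt H q).source := mem_chart_source H q
  have hch : chartAt H q = L.trans c := rfl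
  rw [hch] at hsrc
  simp only [OpenPartialHomeomorph.trans_source, mem_inter_iff, mem_preimage] at hsrc
  obtain ⟨γ, hγ, hev⟩ := h.local_deck (g q) (p := p) hsrc.1
  have a2 : ContMDiffAt I I ∞ (fun z => L (π z)) p := (hγ _).congr_of_eventuallyEq hev
  have a3 : ContMDiffAt I I ∞ c (L (π p)) :=
    contMDiffAt_of_mem_maximalAtlas (IsManifold.chart_mem_maximalAtlas _) hsrc.2
  have a4 : ContMDiffAt I I ∞ (chartAt H q).symm (c (L (π p))) :=
    contMDiffAt_symm_of_mem_maximalAtlas (IsManifold.chart_mem_maximalAtlas _)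
      ((chartAt H q).map_source (mem_chart_source H q))
  have a5 := ContMDiffAt.comp p a4 (ContMDiffAt.comp p a3 a2)
  refine a5.congr_of_eventuallyEq ?_
  have : ∀ᶠ z in 𝓝 p, π z ∈ (chartAt H q).source :=
    h.loc.continuous.continuousAt.eventually_mem
      ((chartAt H q).open_source.mem_nhds (mem_chart_source H q))
  filter_upwards [this] with z hz
  exact ((chartAt H q).left_inv hz).symm

lemma Cov.contMDiffAt_sec (h : Cov I π g) (q : X) :
    letI := h.charted; ContMDiffAt I I ∞ (h.loc.localInverseAt (g q)) q := by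
  letI := h.charted
  haveI := h.isManifold
  set c := chartAt H (g q) with hc
  set L := h.loc.localInverseAt (g q) with hL
  have hsrc : q ∈ (chartAt H q).source := mem_chart_source H q
  have hch : chartAt H q = L.trans c := rfl
  have a1 : ContMDiffAt I I ∞ (chartAt H q) q :=
    contMDiffAt_of_mem_maximalAtlas (IsManifold.chart_mem_maximalAtlas _) hsrc
  have hsrc' := hsrc
  rw [hch] at hsrc'
  simp only [OpenPartialHomeomorph.trans_source, mem_inter_iff, mem_preimage] at hsrc'
  have a2 : ContMDiffAt I I ∞ c.symm (chartAt H q q) :=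
    contMDiffAt_symm_of_mem_maximalAtlas (IsManifold.chart_mem_maximalAtlas _)
      (c.map_source hsrc'.2)
  refine (ContMDiffAt.comp q a2 a1).congr_of_eventuallyEq ?_
  filter_upwards [(chartAt H q).open_source.mem_nhds hsrc] with z hz
  rw [hch] at hz
  simp only [OpenPartialHomeomorph.trans_source, mem_inter_iff, mem_preimage] at hz
  exact (c.left_inv hz.2).symm

omit [IsManifold I ∞ N] in
lemma Cov.sec_self (h : Cov I π g) (q : X) : h.loc.localInverseAt (g q) q = g q := by
  have := h.loc.localInverseAt_apply_self (x := g q)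
  rwa [h.sec q] at this

omit [IsManifold I ∞ N] in
lemma Cov.proj_sec (h : Cov I π g) (q : X) :
    ∀ᶠ z in 𝓝 q, π (h.loc.localInverseAt (g q) z) = z := by
  have h1 : q ∈ (h.loc.localInverseAt (g q)).source := by
    have := h.loc.apply_self_mem_localInverseAt_source (x := g q)
    rwa [h.sec q] at this
  filter_upwards [(h.loc.localInverseAt (g q)).open_source.mem_nhds h1] with z hz
  exact h.loc.apply_localInverseAt_of_mem hz

variable {E' : Type*} [NormedAddCommGroup E'] [NormedSpace ℝ E']
  {H' : Type*} [TopologicalSpace H'] {J : ModelWithCorners ℝ E' H'}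
  {Y : Type*} [TopologicalSpace Y] [ChartedSpace H' Y]

lemma Cov.contMDiff_of_comp (h : Cov I π g) {f : X → Y} (hf : ContMDiff I J ∞ (f ∘ π)) :
    letI := h.charted; ContMDiff I J ∞ f := by
  letI := h.charted
  intro q
  have a1 := h.contMDiffAt_sec q
  refine (ContMDiffAt.comp q (hf _) a1).congr_of_eventuallyEq ?_
  filter_upwards [h.proj_sec q] with z hz
  simp [hz]

/-- every value of the differential of `f` at `q` is a value of the differential of `f ∘ π` at
`g q`, and the tangent vectors correspond. -/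
lemma Cov.exists_lift (h : Cov I π g) (q : X) :
    letI := h.charted
    ∀ v : E, ∃ t : E, (t = 0 → v = 0) ∧
      ∀ {f : X → E'}, ContMDiff I 𝓘(ℝ, E') ∞ f →
        (mfderiv I 𝓘(ℝ, E') f q v : E') = mfderiv I 𝓘(ℝ, E') (f ∘ π) (g q) t := by
  letI := h.charted
  haveI := h.isManifold
  intro v
  set L := h.loc.localInverseAt (g q) with hL
  have a1 : MDifferentiableAt I I L q := (h.contMDiffAt_sec q).mdifferentiableAt (by simp)
  have hLq : L q = g q := h.sec_self q
  refine ⟨mfderiv I I L q v, ?_, ?_⟩
  · intro ht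
    have a2 : MDifferentiableAt I I π (L q) := (h.contMDiff_proj _).mdifferentiableAt (by simp)
    have a3 := mfderiv_comp q a2 a1
    have a4 : (π ∘ L) =ᶠ[𝓝 q] id := h.proj_sec q
    have a5 := a4.mfderiv_eq (I := I) (I' := I)
    rw [mfderiv_id] at a5
    have a6 : (mfderiv I I (π ∘ L) q v : E) = v := congrArg (fun A : E →L[ℝ] E => A v) a5
    have a7 : (mfderiv I I (π ∘ L) q v : E) =
        (mfderiv I I π (L q) : E →L[ℝ] E) (mfderiv I I L q v) :=
      congrArg (fun A : E →L[ℝ] E => A v) a3
    rw [a7, ht] at a6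
    exact a6.symm.trans (map_zero (mfderiv I I π (L q)))
  · intro f hf
    have a2 : MDifferentiableAt I 𝓘(ℝ, E') (f ∘ π) (L q) :=
      ((hf.comp h.contMDiff_proj) _).mdifferentiableAt (by simp)
    have a3 := mfderiv_comp q a2 a1
    have a4 : ((f ∘ π) ∘ L) =ᶠ[𝓝 q] f := by
      filter_upwards [h.proj_sec q] with z hz
      simp only [comp_apply]
      rw [hz]
    have a5 := a4.mfderiv_eq (I := I) (I' := 𝓘(ℝ, E'))
    have a6 : (mfderiv I 𝓘(ℝ, E') ((f ∘ π) ∘ L) q v : E') = mfderiv I 𝓘(ℝ, E') f q v :=
      congrArg (fun A : E →L[ℝ] E' => A v) a5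
    have a7 : (mfderiv I 𝓘(ℝ, E') ((f ∘ π) ∘ L) q v : E') =
        (mfderiv I 𝓘(ℝ, E') (f ∘ π) (L q) : E →L[ℝ] E') (mfderiv I I L q v) :=
      congrArg (fun A : E →L[ℝ] E' => A v) a3
    rw [← a6, a7]
    have : ∀ (z : N) (_ : z = g q) (t : E), (mfderiv I 𝓘(ℝ, E') (f ∘ π) z : E →L[ℝ] E') t =
        (mfderiv I 𝓘(ℝ, E') (f ∘ π) (g q) : E →L[ℝ] E') t := by
      rintro _ rfl t; rfl
    exact this _ hLq _

end

end Pool.Agent.H607Z.Two
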