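import Pool.Agent.H607Z.Two.Sym
import Pool.Agent.H607Z.Two.Quot

/-! The quotient of the product of three unit spheres of quaternions by the even sign changes. -/

namespace Pool.Agent.H607Z.Two

open scoped Manifold ContDiff Topology InnerProductSpace
open Set Filter Function

set_option linter.style.haveILetI false

/-- quaternions -/
abbrev Qn : Type := Quaternion ℝ

/-- unit quaternions -/
abbrev S3 : Type := Metric.sphere (0 : Qn) 1

instance factQ : Fact (Module.finrank ℝ Qn = 3 + 1) := ⟨Quaternion.finrank_eq_four⟩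

/-- product of three spheres -/
abbrev NN : Type := S3 × S3 × S3

/-- ambient space -/
abbrev WW : Type := Qn × Qn × Qn

lemma S3.norm (x : S3) : ‖(x : Qn)‖ = 1 := by simp

lemma S3.ne_zero (x : S3) : (x : Qn) ≠ 0 := by
  intro h
  have := S3.norm x
  rw [h, norm_zero] at this
  exact zero_ne_one this

lemma S3.inner_self (x : S3) : ⟪(x : Qn), (x : Qn)⟫_ℝ = 1 := by
  rw [real_inner_self_eq_norm_sq, S3.norm]; norm_num

lemma S3.ne_neg (x : S3) : (x : Qn) ≠ -(x : Qn) := by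
  intro h
  have h1 : (2 : ℝ) • (x : Qn) = 0 := by
    rw [two_smul]; nth_rewrite 2 [h]; simp
  rcases smul_eq_zero.1 h1 with h2 | h2
  · norm_num at h2
  · exact S3.ne_zero x h2

/-- sign change -/
def sg (a : ℤˣ) (x : S3) : S3 := ⟨a • (x : Qn), by simp⟩

@[simp] lemma sg_coe (a : ℤˣ) (x : S3) : (sg a x : Qn) = a • (x : Qn) := rfl

lemma contMDiff_sg (a : ℤˣ) : ContMDiff (𝓡 3) (𝓡 3) ∞ (sg a) := by
  have h : ContMDiff (𝓡 3) 𝓘(ℝ, Qn) ∞ (fun x : S3 => a • (x : Qn)) := by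
    have h1 : ContDiff ℝ ∞ (fun u : Qn => a • u) := by
      rcases Int.units_eq_one_or a with rfl | rfl
      · simpa using contDiff_fun_id
      · simpa using contDiff_neg
    exact h1.contMDiff.comp contMDiff_coe_sphere
  exact h.codRestrict_sphere (fun x => (sg a x).2)

/-- the group of even sign changes -/
def Gam : Type := ℤˣ × ℤˣ

instance : CommGroup Gam := inferInstanceAs (CommGroup (ℤˣ × ℤˣ))
instance : Finite Gam := inferInstanceAs (Finite (ℤˣ × ℤˣ))

/-- the action -/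
def act (γ : ℤˣ × ℤˣ) (p : NN) : NN := (sg γ.1 p.1, sg γ.2 p.2.1, sg (γ.1 * γ.2) p.2.2)

instance : MulAction Gam NN where
  smul γ p := act γ p
  one_smul p := by
    change act (1 : ℤˣ × ℤˣ) p = p
    ext <;> simp [act]
  mul_smul a b p := by
    obtain ⟨a1, a2⟩ := a
    obtain ⟨b1, b2⟩ := b
    change act ((a1 * b1, a2 * b2) : ℤˣ × ℤˣ) p = act (a1, a2) (act (b1, b2) p)
    refine Prod.ext (Subtype.ext ?_) (Prod.ext (Subtype.ext ?_) (Subtype.ext ?_))
    · simp [act, mul_smul]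
    · simp [act, mul_smul]
    · simp only [act, sg_coe, ← mul_smul]
      congr 1
      simp only [mul_assoc, mul_left_comm]

lemma smul_def (γ : Gam) (p : NN) : γ • p = act γ p := rfl

lemma contMDiff_act (γ : ℤˣ × ℤˣ) : ContMDiff I9 I9 ∞ (act γ) :=
  ((contMDiff_sg _).comp contMDiff_fst).prodMk
    ((((contMDiff_sg _).comp contMDiff_fst).comp contMDiff_snd).prodMk
      (((contMDiff_sg _).comp contMDiff_snd).comp contMDiff_snd))

instance : ContinuousConstSMul Gam NN := ⟨fun γ => (contMDiff_act γ).continuous⟩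

lemma unit_eq_one {a : ℤˣ} {x : S3} (h : sg a x = x) : a = 1 := by
  rcases Int.units_eq_one_or a with rfl | rfl
  · rfl
  · exfalso
    have := congrArg (fun z : S3 => (z : Qn)) h
    simp only [sg_coe, Units.neg_smul, one_smul] at this
    exact S3.ne_neg x this.symm

instance : IsCancelSMul Gam NN := by
  rw [isCancelSMul_iff_eq_one_of_smul_eq]
  rintro ⟨a, b⟩ p h
  have h1 : a = 1 := unit_eq_one (congrArg Prod.fst h)
  have h2 : b = 1 := unit_eq_one (congrArg (fun z : NN => z.2.1) h)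
  subst h1 h2
  rfl

/-- the quotient -/
def XX : Type := MulAction.orbitRel.Quotient Gam NN

instance : TopologicalSpace XX :=
  inferInstanceAs (TopologicalSpace (MulAction.orbitRel.Quotient Gam NN))

instance : CompactSpace XX :=
  inferInstanceAs (CompactSpace (Quotient (MulAction.orbitRel Gam NN)))

instance : T2Space XX :=
  inferInstanceAs (T2Space (Quotient (MulAction.orbitRel Gam NN)))

instance : ConnectedSpace S3 := by
  rw [← isConnected_iff_connectedSpace]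
  apply isConnected_sphere _ _ zero_le_one
  rw [← Module.finrank_eq_rank, Quaternion.finrank_eq_four]
  norm_num

instance : ConnectedSpace XX :=
  inferInstanceAs (ConnectedSpace (Quotient (MulAction.orbitRel Gam NN)))

/-- projection -/
def pr (p : NN) : XX := Quotient.mk (MulAction.orbitRel Gam NN) p

/-- section -/
noncomputable def sec (q : XX) : NN := Quotient.out q

lemma pr_sec (q : XX) : pr (sec q) = q := Quotient.out_eq q

lemma pr_act (γ : ℤˣ × ℤˣ) (p : NN) : pr (act γ p) = pr p :=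
  Quotient.sound (s := MulAction.orbitRel Gam NN) ⟨γ, rfl⟩

lemma pr_eq {p p' : NN} (h : pr p = pr p') : ∃ γ : ℤˣ × ℤˣ, act γ p = p' := by
  obtain ⟨γ, hγ⟩ := Quotient.exact (s := MulAction.orbitRel Gam NN) h.symm
  exact ⟨γ, hγ⟩

lemma cov : Cov I9 pr sec where
  loc := (isQuotientCoveringMap_quotientMk_of_properlyDiscontinuousSMul
    (G := Gam) (E := NN)).isCoveringMap.isLocalHomeomorph
  sec := pr_sec
  deck p p' h := by
    obtain ⟨γ, hγ⟩ := pr_eq h
    exact ⟨act γ, contMDiff_act γ, hγ, pr_act γ⟩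

noncomputable instance : ChartedSpace H9 XX := cov.charted

instance : IsManifold I9 ∞ XX := cov.isManifold

/-- inclusion in the ambient space -/
def jj (p : NN) : WW := (p.1, p.2.1, p.2.2)

lemma contMDiff_c1 : ContMDiff I9 𝓘(ℝ, Qn) ∞ (fun p : NN => (p.1 : Qn)) :=
  contMDiff_coe_sphere.comp contMDiff_fst

lemma contMDiff_c2 : ContMDiff I9 𝓘(ℝ, Qn) ∞ (fun p : NN => (p.2.1 : Qn)) :=
  (contMDiff_coe_sphere.comp contMDiff_fst).comp contMDiff_snd

lemma contMDiff_c3 : ContMDiff I9 𝓘(ℝ, Qn) ∞ (fun p : NN => (p.2.2 : Qn)) :=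
  (contMDiff_coe_sphere.comp contMDiff_snd).comp contMDiff_snd

lemma contMDiff_jj : ContMDiff I9 𝓘(ℝ, WW) ∞ jj :=
  contMDiff_c1.prodMk_space (contMDiff_c2.prodMk_space contMDiff_c3)

/-- differential of the inclusion -/
noncomputable def Dj (p : NN) : E9 →L[ℝ] WW := mfderiv I9 𝓘(ℝ, WW) jj p

lemma mfderiv_comp_jj {V : Type} [NormedAddCommGroup V] [NormedSpace ℝ V] {F : WW → V} {p : NN}
    (hF : DifferentiableAt ℝ F (jj p)) (t : E9) :
    (mfderiv I9 𝓘(ℝ, V) (F ∘ jj) p t : V) = fderiv ℝ F (jj p) (Dj p t) := by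
  have a1 : MDifferentiableAt I9 𝓘(ℝ, WW) jj p := (contMDiff_jj p).mdifferentiableAt (by simp)
  have a2 := mfderiv_comp p (I' := 𝓘(ℝ, WW)) (I'' := 𝓘(ℝ, V)) hF.mdifferentiableAt a1
  rw [mfderiv_eq_fderiv] at a2
  exact congrArg (fun L : E9 →L[ℝ] V => L t) a2

lemma inner_fderiv_eq_zero {V : Type} [NormedAddCommGroup V] [InnerProductSpace ℝ V]
    {F : WW → V} (hF : Differentiable ℝ F) (h1 : ∀ p, ‖F (jj p)‖ = 1) (p : NN) (t : E9) :
    ⟪F (jj p), fderiv ℝ F (jj p) (Dj p t)⟫_ℝ = 0 := by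
  have hG := ((hF (jj p)).hasFDerivAt.inner (𝕜 := ℝ) (hF (jj p)).hasFDerivAt)
  have a1 := mfderiv_comp_jj hG.differentiableAt t
  have a2 : (fun w => ⟪F w, F w⟫_ℝ) ∘ jj = fun _ => 1 := by
    funext z
    simp [h1]
  rw [a2, mfderiv_const, hG.fderiv] at a1
  have a3 : (0 : ℝ) = ⟪F (jj p), fderiv ℝ F (jj p) (Dj p t)⟫_ℝ +
      ⟪fderiv ℝ F (jj p) (Dj p t), F (jj p)⟫_ℝ := by
    refine a1.trans ?_
    simp [fderivInnerCLM_apply]
  rw [real_inner_comm (F (jj p))] at a3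
  linarith

lemma inner_Dj1 (p : NN) (t : E9) : ⟪(p.1 : Qn), (Dj p t).1⟫_ℝ = 0 := by
  have := inner_fderiv_eq_zero (F := fun w : WW => w.1) differentiable_fst
    (fun p => S3.norm p.1) p t
  rwa [fderiv_fst] at this

lemma inner_Dj2 (p : NN) (t : E9) : ⟪(p.2.1 : Qn), (Dj p t).2.1⟫_ℝ = 0 := by
  let L : WW →L[ℝ] Qn := (ContinuousLinearMap.fst ℝ Qn Qn).comp (ContinuousLinearMap.snd ℝ Qn _)
  have := inner_fderiv_eq_zero (F := L) L.differentiable (fun p => S3.norm p.2.1) p t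
  rwa [L.fderiv] at this

lemma inner_Dj3 (p : NN) (t : E9) : ⟪(p.2.2 : Qn), (Dj p t).2.2⟫_ℝ = 0 := by
  let L : WW →L[ℝ] Qn := (ContinuousLinearMap.snd ℝ Qn Qn).comp (ContinuousLinearMap.snd ℝ Qn _)
  have := inner_fderiv_eq_zero (F := L) L.differentiable (fun p => S3.norm p.2.2) p t
  rwa [L.fderiv] at this

lemma coe_inj (x : S3) : Injective (mfderiv (𝓡 3) 𝓘(ℝ, Qn) ((↑) : S3 → Qn) x) := by
  convert! injective_mvfderiv_subtypeVal_sphere (n := 3) x

lemma Dj_inj (p : NN) (t : E9) (ht : Dj p t = 0) : t = 0 := by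
  have hc : ∀ x : S3, MDifferentiableAt (𝓡 3) 𝓘(ℝ, Qn) ((↑) : S3 → Qn) x :=
    fun x => (contMDiff_coe_sphere (m := 1) x).mdifferentiableAt one_ne_zero
  have key : ∀ (L : WW →L[ℝ] Qn) (f : NN → S3) (f' : E9 →L[ℝ] EuclideanSpace ℝ (Fin 3)),
      HasMFDerivAt I9 (𝓡 3) f p f' → (L ∘ jj = ((↑) : S3 → Qn) ∘ f) → f' t = 0 := by
    intro L f f' hf hL
    have a1 := mfderiv_comp_jj (p := p) L.differentiableAt t
    rw [L.fderiv, ht, map_zero, hL] at a1
    have a2 := mfderiv_comp p (hc (f p)) hf.mdifferentiableAt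
    rw [hf.mfderiv] at a2
    have a3 := congrArg (fun A : E9 →L[ℝ] Qn => A t) a2
    apply coe_inj (f p)
    exact (a3.symm.trans a1).trans (map_zero _).symm
  have h1 : t.1 = 0 := key (ContinuousLinearMap.fst ℝ Qn _) Prod.fst _ (hasMFDerivAt_fst p) rfl
  have h2 : t.2.1 = 0 := key
    ((ContinuousLinearMap.fst ℝ Qn Qn).comp (ContinuousLinearMap.snd ℝ Qn _))
    (Prod.fst ∘ Prod.snd) _ ((hasMFDerivAt_fst p.2).comp p (hasMFDerivAt_snd p)) rfl
  have h3 : t.2.2 = 0 := key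
    ((ContinuousLinearMap.snd ℝ Qn Qn).comp (ContinuousLinearMap.snd ℝ Qn _))
    (Prod.snd ∘ Prod.snd) _ ((hasMFDerivAt_snd p.2).comp p (hasMFDerivAt_snd p)) rfl
  exact Prod.ext h1 (Prod.ext h2 h3)

/-- descent of a family of equivariant maps -/
noncomputable def desc (S : NN → NN → NN) (q0 q : XX) : XX := pr (S (sec q0) (sec q))

lemma desc_pr {S : NN → NN → NN} (hS : ∀ p0 γ p, S p0 (act γ p) = act γ (S p0 p))
    (q0 : XX) (p : NN) : desc S q0 (pr p) = pr (S (sec q0) p) := by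
  obtain ⟨γ, hγ⟩ := pr_eq (pr_sec (pr p)).symm
  rw [desc, ← hγ, hS, pr_act]

theorem realized_of_ambient
    {V : Type} [NormedAddCommGroup V] [NormedSpace ℝ V] (B : V →L[ℝ] V →L[ℝ] ℝ)
    (hsymm : ∀ v w, B v w = B w v) (hpos : ∀ v, v ≠ 0 → 0 < B v v)
    (F : WW → V) (hF : ContDiff ℝ ∞ F) (hFa : ∀ γ p, F (jj (act γ p)) = F (jj p))
    (hinj : ∀ p t, fderiv ℝ F (jj p) (Dj p t) = 0 → Dj p t = 0)
    (S : NN → NN → NN) (hSm : ∀ p0, ContMDiff I9 I9 ∞ (S p0))
    (hS : ∀ p0 γ p, S p0 (act γ p) = act γ (S p0 p))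
    (hSS : ∀ p0 p, S p0 (S p0 p) = p) (hfix : ∀ p, S p p = p)
    (A : NN → V →L[ℝ] V) (hA : ∀ p u, B (A p u) (A p u) = B u u)
    (hFS : ∀ p0 p, F (jj (S p0 p)) = A p0 (F (jj p)))
    (hneg : ∀ p t, A p (fderiv ℝ F (jj p) (Dj p t)) = -fderiv ℝ F (jj p) (Dj p t)) :
    Realized (twoNumber (desc S)) (totalBettiModTwo XX) := by
  let ι : XX → V := fun q => F (jj (sec q))
  have hιp : ι ∘ pr = F ∘ jj := by
    funext p
    obtain ⟨γ, hγ⟩ := pr_eq (pr_sec (pr p)).symm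
    simp only [comp_apply, ι]
    rw [← hγ, hFa]
  have hι : ContMDiff I9 𝓘(ℝ, V) ∞ ι := by
    apply cov.contMDiff_of_comp
    rw [hιp]
    exact hF.contMDiff.comp contMDiff_jj
  have hD : ∀ (q : XX) (v : E9), ∃ t : E9, (t = 0 → v = 0) ∧
      (mfderiv I9 𝓘(ℝ, V) ι q v : V) = fderiv ℝ F (jj (sec q)) (Dj (sec q) t) := by
    intro q v
    obtain ⟨t, ht1, ht2⟩ := cov.exists_lift (E' := V) q v
    refine ⟨t, ht1, ?_⟩
    rw [ht2 hι, hιp]
    exact mfderiv_comp_jj (hF.differentiable (by simp) _) t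
  refine realized_of_immersion B hsymm hpos ι hι ?_ (desc S) ?_ ?_ ?_ (fun q => A (sec q))
    (fun q u => hA _ u) ?_ ?_
  · intro q
    rw [injective_iff_map_eq_zero]
    intro v hv
    obtain ⟨t, ht1, ht2⟩ := hD q v
    exact ht1 (Dj_inj _ _ (hinj _ _ (ht2.symm.trans hv)))
  · intro q0
    apply cov.contMDiff_of_comp
    have : desc S q0 ∘ pr = pr ∘ S (sec q0) := funext fun p => desc_pr hS q0 p
    rw [this]
    exact cov.contMDiff_proj.comp (hSm _)
  · intro q0 q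
    rw [desc.eq_1 S q0 q, desc_pr hS, hSS, pr_sec]
  · intro q
    rw [desc, hfix, pr_sec]
  · intro q0 q
    have := congrFun hιp (S (sec q0) (sec q))
    simp only [comp_apply] at this
    rw [desc, this, hFS]
  · intro q v
    obtain ⟨t, -, ht2⟩ := hD q v
    rw [ht2, hneg]
    rfl

end Pool.Agent.H607Z.Two
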