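import Pool.Agent.H607Z.Two.Defs
import Pool.Agent.H839R2.Geo.Embed

/-! Symmetric spaces from equivariant immersions. -/

namespace Pool.Agent.H607Z.Two

open scoped Manifold ContDiff Topology
open Set Filter Function Bundle Manifold Pool.Agent.H839R2.Geo

set_option linter.style.haveILetI false

section Iso

variable {E : Type*} [NormedAddCommGroup E] [NormedSpace ℝ E]
  {H : Type*} [TopologicalSpace H] {I : ModelWithCorners ℝ E H}
  {X : Type*} [TopologicalSpace X] [ChartedSpace H X] [IsManifold I ∞ X]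
  [RiemannianBundle (fun x : X => TangentSpace I x)]

omit [IsManifold I ∞ X] in
lemma riemannianEDist_map_le {f : X → X} (hf : ContMDiff I I ∞ f)
    (hn : ∀ (x : X) (v : TangentSpace I x), ‖mfderiv I I f x v‖ₑ = ‖v‖ₑ) (x y : X) :
    riemannianEDist I (f x) (f y) ≤ riemannianEDist I x y := by
  apply le_of_forall_gt
  intro r hr
  obtain ⟨c, h0, h1, hc, hlt⟩ := exists_lt_of_riemannianEDist_lt hr
  have hfc : ContMDiffOn 𝓘(ℝ, ℝ) I 1 (f ∘ c) (Icc 0 1) :=
    (hf.of_le (by simp)).comp_contMDiffOn hc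
  refine lt_of_le_of_lt ?_ hlt
  refine (riemannianEDist_le_pathELength hfc (by simp [h0]) (by simp [h1]) zero_le_one).trans
    (le_of_eq ?_)
  rw [pathELength_eq_lintegral_mfderivWithin_Icc, pathELength_eq_lintegral_mfderivWithin_Icc]
  apply MeasureTheory.setLIntegral_congr_fun measurableSet_Icc (fun t ht ↦ ?_)
  have h1 : mfderivWithin 𝓘(ℝ, ℝ) I (f ∘ c) (Icc 0 1) t =
      (mfderiv I I f (c t)).comp (mfderivWithin 𝓘(ℝ, ℝ) I c (Icc 0 1) t) := by
    apply mfderiv_comp_mfderivWithin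
    · exact (hf (c t)).mdifferentiableAt (by simp)
    · exact (hc t ht).mdifferentiableWithinAt (by simp)
    · rw [uniqueMDiffWithinAt_iff_uniqueDiffWithinAt]
      exact uniqueDiffOn_Icc zero_lt_one t ht
  rw [h1]
  exact hn _ _

end Iso

/-- the model vector space, of dimension nine -/
abbrev E9 : Type :=
  EuclideanSpace ℝ (Fin 3) × EuclideanSpace ℝ (Fin 3) × EuclideanSpace ℝ (Fin 3)

/-- the model space -/
abbrev H9 : Type :=
  ModelProd (EuclideanSpace ℝ (Fin 3))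
    (ModelProd (EuclideanSpace ℝ (Fin 3)) (EuclideanSpace ℝ (Fin 3)))

/-- the model with corners -/
noncomputable abbrev I9 : ModelWithCorners ℝ E9 H9 := (𝓡 3).prod ((𝓡 3).prod (𝓡 3))

/-- there is a compact connected symmetric space with two-number `n` and total Betti number `b` -/
def Realized (n b : Cardinal.{0}) : Prop :=
  ∃ (M : Type) (_ : EMetricSpace M) (_ : ChartedSpace H9 M) (_ : IsManifold I9 ∞ M)
    (_ : RiemannianBundle (fun x : M => TangentSpace I9 x))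
    (_ : IsContMDiffRiemannianBundle I9 ∞ E9 (fun x : M => TangentSpace I9 x))
    (_ : IsRiemannianManifold I9 M),
    CompactSpace M ∧ ConnectedSpace M ∧ ∃ s : M → M → M,
      (∀ x : M, Isometry (s x) ∧ ContMDiff I9 I9 ∞ (s x) ∧ s x x = x ∧
        mfderiv I9 I9 (s x) x = -ContinuousLinearMap.id ℝ (TangentSpace I9 x)) ∧
      twoNumber s = n ∧ totalBettiModTwo M = b

theorem realized_of_immersion {X : Type} [TopologicalSpace X] [ChartedSpace H9 X]
    [IsManifold I9 ∞ X] [T3Space X] [CompactSpace X] [ConnectedSpace X]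
    {V : Type} [NormedAddCommGroup V] [NormedSpace ℝ V] (B : V →L[ℝ] V →L[ℝ] ℝ)
    (hsymm : ∀ v w, B v w = B w v) (hpos : ∀ v, v ≠ 0 → 0 < B v v)
    (ι : X → V) (hι : ContMDiff I9 𝓘(ℝ, V) ∞ ι)
    (hinj : ∀ p : X, Function.Injective (mfderiv I9 𝓘(ℝ, V) ι p))
    (s : X → X → X) (hs : ∀ x, ContMDiff I9 I9 ∞ (s x)) (hss : ∀ x y, s x (s x y) = y)
    (hfix : ∀ x, s x x = x) (A : X → V →L[ℝ] V) (hA : ∀ x u, B (A x u) (A x u) = B u u)
    (hιs : ∀ x y, ι (s x y) = A x (ι y))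
    (hneg : ∀ x (v : E9), A x (mfderiv I9 𝓘(ℝ, V) ι x v) = -(mfderiv I9 𝓘(ℝ, V) ι x v : V)) :
    Realized (twoNumber s) (totalBettiModTwo X) := by
  let g := embMetric ι hι hinj (fun _ => B) (fun _ => contDiffAt_const)
    (fun _ v w => hsymm v w) (fun _ v hv => hpos v hv)
  letI rb : RiemannianBundle (fun x : X => TangentSpace I9 x) := ⟨g.toRiemannianMetric⟩
  haveI hc : IsContMDiffRiemannianBundle I9 ∞ E9 (fun x : X => TangentSpace I9 x) :=
    inferInstance
  haveI hc0 : IsContinuousRiemannianBundle E9 (fun x : X => TangentSpace I9 x) :=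
    ⟨g.inner, g.contMDiff.continuous, fun _ _ _ => rfl⟩
  haveI : IsManifold I9 1 X := IsManifold.of_le (m := 1) (n := ∞) (by simp)
  have hchain : ∀ x y (v : E9), (mfderiv I9 𝓘(ℝ, V) ι (s x y) : E9 →L[ℝ] V)
      (mfderiv I9 I9 (s x) y v) = A x (mfderiv I9 𝓘(ℝ, V) ι y v) := by
    intro x y v
    have a1 : MDifferentiableAt I9 I9 (s x) y := (hs x y).mdifferentiableAt (by simp)
    have a2 : ∀ z, MDifferentiableAt I9 𝓘(ℝ, V) ι z :=
      fun z => (hι z).mdifferentiableAt (by simp)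
    have a3 := mfderiv_comp y (a2 (s x y)) a1
    have a4 : ι ∘ s x = (A x) ∘ ι := funext fun z => hιs x z
    have a5 := mfderiv_comp y (I' := 𝓘(ℝ, V)) (I'' := 𝓘(ℝ, V)) (g := A x)
      ((A x).mdifferentiableAt) (a2 y)
    rw [ContinuousLinearMap.mfderiv_eq] at a5
    have a6 : (mfderiv I9 𝓘(ℝ, V) (ι ∘ s x) y : E9 →L[ℝ] V) =
        (mfderiv I9 𝓘(ℝ, V) ((A x) ∘ ι) y : E9 →L[ℝ] V) := by rw [a4]
    have a7 := congrArg (fun L : E9 →L[ℝ] V => L v) (a3.symm.trans (a6.trans a5))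
    exact a7
  have hnorm : ∀ x (y : X) (v : TangentSpace I9 y), ‖mfderiv I9 I9 (s x) y v‖ₑ = ‖v‖ₑ := by
    intro x y v
    have h1 : ‖mfderiv I9 I9 (s x) y v‖ = ‖v‖ := by
      rw [norm_eq_sqrt_real_inner, norm_eq_sqrt_real_inner]
      congr 1
      change B ((mfderiv I9 𝓘(ℝ, V) ι (s x y) : E9 →L[ℝ] V) (mfderiv I9 I9 (s x) y v))
        ((mfderiv I9 𝓘(ℝ, V) ι (s x y) : E9 →L[ℝ] V) (mfderiv I9 I9 (s x) y v)) =
        B (mfderiv I9 𝓘(ℝ, V) ι y v) (mfderiv I9 𝓘(ℝ, V) ι y v)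
      rw [hchain, hA]
    rw [← ofReal_norm, ← ofReal_norm, h1]
  letI em : EMetricSpace X := EMetricSpace.ofRiemannianMetric I9 X
  refine ⟨X, em, inferInstance, inferInstance, rb, hc, ⟨fun _ _ => rfl⟩, inferInstance,
    inferInstance, s, fun x => ⟨?_, hs x, hfix x, ?_⟩, rfl, rfl⟩
  · intro y z
    change riemannianEDist I9 (s x y) (s x z) = riemannianEDist I9 y z
    apply le_antisymm (riemannianEDist_map_le (hs x) (hnorm x) y z)
    have := riemannianEDist_map_le (hs x) (hnorm x) (s x y) (s x z)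
    rwa [hss, hss] at this
  · ext1 v
    have h1 := hchain x x v
    rw [hneg] at h1
    have h2 : ∀ (z : X) (_ : z = x) (w : E9), (mfderiv I9 𝓘(ℝ, V) ι z : E9 →L[ℝ] V) w =
        (mfderiv I9 𝓘(ℝ, V) ι x : E9 →L[ℝ] V) w := by
      rintro _ rfl w; rfl
    rw [h2 _ (hfix x)] at h1
    have h3 : (mfderiv I9 𝓘(ℝ, V) ι x : E9 →L[ℝ] V) (mfderiv I9 I9 (s x) x v) =
        (mfderiv I9 𝓘(ℝ, V) ι x : E9 →L[ℝ] V) (-v) :=
      h1.trans (map_neg (mfderiv I9 𝓘(ℝ, V) ι x) v).symm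
    exact hinj x h3

end Pool.Agent.H607Z.Two
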